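import Mathlib

/-!
# Residual finiteness of `Out (A × B)` : helper file for MP_0c5939_al
-/

namespace MP0c5939al

open Pointwise

universe u

/-- A group is residually finite: every nontrivial element is missed by some normal subgroup of
finite index. -/
def RF (G : Type u) [Group G] : Prop :=
  ∀ g : G, g ≠ 1 → ∃ N : Subgroup G, N.Normal ∧ N.FiniteIndex ∧ g ∉ N

/-- The subgroup of inner automorphisms. -/
def Inn (G : Type u) [Group G] : Subgroup (MulAut G) := (MulAut.conj : G →* MulAut G).range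

instance innNormal (G : Type u) [Group G] : (Inn G).Normal := by
  constructor
  rintro _ ⟨g, rfl⟩ φ
  refine ⟨φ g, ?_⟩
  ext x
  simp [MulAut.conj_apply]

/-- The outer automorphism group. -/
abbrev Out (G : Type u) [Group G] : Type u := MulAut G ⧸ Inn G

/-- An automorphism which agrees with an inner automorphism modulo each normal subgroup of
finite index. -/
def ProInner {G : Type u} [Group G] (α : MulAut G) : Prop :=
  ∀ M : Subgroup G, M.Normal → M.FiniteIndex → ∃ c : G, ∀ g : G, α g * (c * g * c⁻¹)⁻¹ ∈ M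

/-- `θ` lies in each normal subgroup of finite index of `Aut G` containing `Inn G`, i.e. its class
in `Out G` lies in the finite residual. -/
def Resid {G : Type u} [Group G] (θ : MulAut G) : Prop :=
  ∀ N : Subgroup (MulAut G), N.Normal → N.FiniteIndex → Inn G ≤ N → θ ∈ N

section action

variable {G : Type u} [Group G]

lemma finite_hom (hG : Group.FG G) (Q : Type u) [Group Q] [Finite Q] : Finite (G →* Q) := by
  obtain ⟨S, hS⟩ := hG.out
  have : Function.Injective (fun (f : G →* Q) (s : S) => f s) := by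
    intro f g h
    apply MonoidHom.eq_of_eqOn_dense hS
    intro s hs
    exact congrFun h ⟨s, hs⟩
  exact Finite.of_injective _ this

/-- action of `Aut G` on homs to `Q`. -/
def act (G Q : Type u) [Group G] [Group Q] : MulAut G →* Equiv.Perm (G →* Q) where
  toFun φ :=
    { toFun := fun f => f.comp (φ⁻¹ : MulAut G).toMonoidHom
      invFun := fun f => f.comp φ.toMonoidHom
      left_inv := by
        intro f
        ext x
        simp
      right_inv := by
        intro f
        ext x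
        simp }
  map_one' := by
    ext f x
    simp
  map_mul' := by
    intro a b
    ext f x
    simp

lemma act_apply (Q : Type u) [Group Q] (φ : MulAut G) (f : G →* Q) (g : G) :
    (act G Q φ f) g = f (φ⁻¹ g) := rfl

lemma resid_key (hG : Group.FG G) {θ : MulAut G} (hθ : Resid θ) (Q : Type u) [Group Q]
    [Finite Q] : ∃ c : G, ∀ (f : G →* Q) (g : G), f (θ g) = f c * f g * (f c)⁻¹ := by
  have := finite_hom hG Q
  have : Finite (Equiv.Perm (G →* Q)) := inferInstance
  obtain ⟨K, hKdef⟩ : ∃ K : Subgroup (MulAut G), K = (act G Q).ker := ⟨_, rfl⟩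
  have hKF : K.FiniteIndex := by rw [hKdef]; infer_instance
  have hKN : K.Normal := by rw [hKdef]; infer_instance
  have hN : (Inn G ⊔ K).Normal := Subgroup.sup_normal _ _
  have hF : (Inn G ⊔ K).FiniteIndex := Subgroup.finiteIndex_of_le (le_sup_right : K ≤ Inn G ⊔ K)
  have h := hθ _ hN hF le_sup_left
  obtain ⟨y, ⟨c, rfl⟩, k, hk, rfl⟩ := Subgroup.mem_sup_of_normal_left.1 h
  refine ⟨c, fun f g => ?_⟩
  have hk1 : k⁻¹ ∈ (act G Q).ker := by rw [← hKdef]; exact K.inv_mem hk
  have hk' : (act G Q) k⁻¹ = 1 := hk1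
  have h2 : f (k g) = f g := by
    have h3 := act_apply Q k⁻¹ f g
    rw [hk', inv_inv] at h3
    exact h3.symm
  have h4 : (MulAut.conj c * k) g = c * k g * c⁻¹ := rfl
  rw [h4, map_mul, map_mul, map_inv, h2]

end action

section prod

variable {A B : Type u} [Group A] [Group B]

/-- The subgroup of automorphisms of `A × B` mapping `A × 1` onto itself. -/
def S (A B : Type u) [Group A] [Group B] : Subgroup (MulAut (A × B)) where
  carrier := {θ | (∀ a : A, (θ (a, 1)).2 = 1) ∧ (∀ a : A, (θ⁻¹ (a, 1)).2 = 1)}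
  one_mem' := ⟨fun _ => rfl, fun _ => rfl⟩
  mul_mem' := by
    rintro x y ⟨h1, h2⟩ ⟨h3, h4⟩
    constructor
    · intro a
      have e : y (a, 1) = ((y (a, 1)).1, 1) := Prod.ext rfl (h3 a)
      rw [MulAut.mul_apply, e]
      exact h1 _
    · intro a
      have e : x⁻¹ (a, 1) = ((x⁻¹ (a, 1)).1, 1) := Prod.ext rfl (h2 a)
      rw [mul_inv_rev, MulAut.mul_apply, e]
      exact h4 _
  inv_mem' := by
    rintro x ⟨h1, h2⟩
    exact ⟨h2, by simpa using h1⟩

lemma S_fst {θ : MulAut (A × B)} (h : θ ∈ S A B) (a : A) : θ (a, 1) = ((θ (a, 1)).1, 1) :=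
  Prod.ext rfl (h.1 a)

lemma S_snd {θ : MulAut (A × B)} (h : θ ∈ S A B) (a : A) (b : B) :
    (θ (a, b)).2 = (θ (1, b)).2 := by
  have e : (a, b) = (a, 1) * (1, b) := by simp
  rw [e, map_mul, S_fst h a]
  simp

/-- Restriction to `A`. -/
def rA (A B : Type u) [Group A] [Group B] : S A B →* MulAut A where
  toFun θ :=
    { toFun := fun a => (θ.1 (a, 1)).1
      invFun := fun a => (θ.1⁻¹ (a, 1)).1
      left_inv := by
        intro a
        have h := S_fst θ.2 a
        have h2 : θ.1⁻¹ (θ.1 (a, 1)) = (a, 1) := MulAut.inv_apply_self _ _ _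
        rw [h] at h2
        exact congrArg Prod.fst h2
      right_inv := by
        intro a
        have h := S_fst ((S A B).inv_mem θ.2) a
        have h2 : θ.1 (θ.1⁻¹ (a, 1)) = (a, 1) := MulAut.apply_inv_self _ _ _
        rw [h] at h2
        exact congrArg Prod.fst h2
      map_mul' := by
        intro a b
        have e : ((a * b, 1) : A × B) = (a, 1) * (b, 1) := by simp
        rw [e, map_mul, Prod.fst_mul] }
  map_one' := by
    ext a
    rfl
  map_mul' := by
    intro x y
    ext a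
    change (x.1 (y.1 (a, 1))).1 = (x.1 ((y.1 (a, 1)).1, 1)).1
    rw [← S_fst y.2 a]

/-- The induced automorphism of `B`. -/
def rB (A B : Type u) [Group A] [Group B] : S A B →* MulAut B where
  toFun θ :=
    { toFun := fun b => (θ.1 (1, b)).2
      invFun := fun b => (θ.1⁻¹ (1, b)).2
      left_inv := by
        intro b
        have h := S_snd ((S A B).inv_mem θ.2) (θ.1 (1, b)).1 (θ.1 (1, b)).2
        have h2 : θ.1⁻¹ (θ.1 (1, b)) = (1, b) := MulAut.inv_apply_self _ _ _
        have h3 : θ.1⁻¹ ((θ.1 (1, b)).1, (θ.1 (1, b)).2) = (1, b) := h2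
        rw [h3] at h
        exact h.symm
      right_inv := by
        intro b
        have h := S_snd θ.2 (θ.1⁻¹ (1, b)).1 (θ.1⁻¹ (1, b)).2
        have h2 : θ.1 (θ.1⁻¹ (1, b)) = (1, b) := MulAut.apply_inv_self _ _ _
        have h3 : θ.1 ((θ.1⁻¹ (1, b)).1, (θ.1⁻¹ (1, b)).2) = (1, b) := h2
        rw [h3] at h
        exact h.symm
      map_mul' := by
        intro a b
        have e : ((1, a * b) : A × B) = (1, a) * (1, b) := by simp
        rw [e, map_mul, Prod.snd_mul] }
  map_one' := by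
    ext a
    rfl
  map_mul' := by
    intro x y
    ext b
    change (x.1 (y.1 (1, b))).2 = (x.1 (1, (y.1 (1, b)).2)).2
    exact S_snd x.2 (y.1 (1, b)).1 (y.1 (1, b)).2

lemma inn_le_S : Inn (A × B) ≤ S A B := by
  rintro _ ⟨c, rfl⟩
  constructor
  · intro a
    simp
  · intro a
    rw [← map_inv]
    simp

/-- Elements of the finite residual are product automorphisms. -/
lemma resid_prod (hA : Group.FG A) (hB : Group.FG B) (rfA : RF A) (rfB : RF B)
    {θ : MulAut (A × B)} (hθ : Resid θ) :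
    ∃ (α : MulAut A) (δ : MulAut B), (∀ a b, θ (a, b) = (α a, δ b)) ∧ ProInner α ∧
      ProInner δ := by
  have hG : Group.FG (A × B) := inferInstance
  have h1 : ∀ ψ : MulAut (A × B), Resid ψ → ∀ a : A, (ψ (a, 1)).2 = 1 := by
    intro ψ hψ a
    by_contra hne
    obtain ⟨N, hN, hNF, hmem⟩ := rfB _ hne
    have : Finite (B ⧸ N) := inferInstance
    obtain ⟨c, hc⟩ := resid_key hG hψ (B ⧸ N)
    have := hc ((QuotientGroup.mk' N).comp (MonoidHom.snd A B)) (a, 1)
    simp at this
    exact hmem this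
  have h2 : ∀ ψ : MulAut (A × B), Resid ψ → ∀ b : B, (ψ (1, b)).1 = 1 := by
    intro ψ hψ b
    by_contra hne
    obtain ⟨N, hN, hNF, hmem⟩ := rfA _ hne
    have : Finite (A ⧸ N) := inferInstance
    obtain ⟨c, hc⟩ := resid_key hG hψ (A ⧸ N)
    have := hc ((QuotientGroup.mk' N).comp (MonoidHom.fst A B)) (1, b)
    simp at this
    exact hmem this
  have hinv : Resid θ⁻¹ := fun N hN hF hI => N.inv_mem (hθ N hN hF hI)
  have hS : θ ∈ S A B := ⟨h1 θ hθ, h1 θ⁻¹ hinv⟩
  refine ⟨rA A B ⟨θ, hS⟩, rB A B ⟨θ, hS⟩, ?_, ?_, ?_⟩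
  · intro a b
    have e : ((a, b) : A × B) = (a, 1) * (1, b) := by simp
    rw [e, map_mul]
    refine Prod.ext ?_ ?_
    · change (θ (a, 1)).1 * (θ (1, b)).1 = (θ (a, 1)).1
      rw [h2 θ hθ b, mul_one]
    · change (θ (a, 1)).2 * (θ (1, b)).2 = (θ (1, b)).2
      rw [h1 θ hθ a, one_mul]
  · intro M hM hMF
    have : Finite (A ⧸ M) := inferInstance
    obtain ⟨c, hc⟩ := resid_key hG hθ (A ⧸ M)
    refine ⟨c.1, fun g => ?_⟩
    have h := hc ((QuotientGroup.mk' M).comp (MonoidHom.fst A B)) (g, 1)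
    rw [← QuotientGroup.eq_one_iff]
    change ((θ (g, 1)).1 : A ⧸ M) = (c.1 : A ⧸ M) * (g : A ⧸ M) * (c.1 : A ⧸ M)⁻¹ at h
    change (((θ (g, 1)).1 * (c.1 * g * c.1⁻¹)⁻¹ : A) : A ⧸ M) = 1
    rw [QuotientGroup.mk_mul, h, QuotientGroup.mk_inv, QuotientGroup.mk_mul,
      QuotientGroup.mk_mul, QuotientGroup.mk_inv, mul_inv_cancel]
  · intro M hM hMF
    have : Finite (B ⧸ M) := inferInstance
    obtain ⟨c, hc⟩ := resid_key hG hθ (B ⧸ M)
    refine ⟨c.2, fun g => ?_⟩
    have h := hc ((QuotientGroup.mk' M).comp (MonoidHom.snd A B)) (1, g)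
    rw [← QuotientGroup.eq_one_iff]
    change ((θ (1, g)).2 : B ⧸ M) = (c.2 : B ⧸ M) * (g : B ⧸ M) * (c.2 : B ⧸ M)⁻¹ at h
    change (((θ (1, g)).2 * (c.2 * g * c.2⁻¹)⁻¹ : B) : B ⧸ M) = 1
    rw [QuotientGroup.mk_mul, h, QuotientGroup.mk_inv, QuotientGroup.mk_mul,
      QuotientGroup.mk_mul, QuotientGroup.mk_inv, mul_inv_cancel]

/-- residual finiteness of `Out` from the residual being inner -/
lemma rf_out {G : Type u} [Group G] (h : ∀ θ : MulAut G, Resid θ → θ ∈ Inn G) : RF (Out G) := by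
  intro x hx
  by_contra hcon
  push Not at hcon
  obtain ⟨θ, rfl⟩ := QuotientGroup.mk_surjective x
  apply hx
  rw [QuotientGroup.eq_one_iff]
  apply h
  intro N hN hNF hI
  have h1 : (N.map (QuotientGroup.mk' (Inn G))).Normal :=
    hN.map _ (QuotientGroup.mk'_surjective _)
  have h3 : (N.map (QuotientGroup.mk' (Inn G))).comap (QuotientGroup.mk' (Inn G)) = N := by
    rw [Subgroup.comap_map_eq, QuotientGroup.ker_mk']
    exact sup_eq_left.2 hI
  have h2 : (N.map (QuotientGroup.mk' (Inn G))).FiniteIndex := by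
    constructor
    rw [← Subgroup.index_comap_of_surjective _ (QuotientGroup.mk'_surjective (Inn G)), h3]
    exact hNF.index_ne_zero
  have h4 := hcon _ h1 h2
  have h5 : θ ∈ (N.map (QuotientGroup.mk' (Inn G))).comap (QuotientGroup.mk' (Inn G)) := h4
  rwa [h3] at h5

/-- If the stabilizer of `A × 1` has finite index and `Out C` is residually finite, then for a
homomorphism from the stabilizer to `Aut C` mapping inner automorphisms to inner automorphisms,
the finite residual maps to inner automorphisms. -/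
lemma resid_inner (hS : (S A B).FiniteIndex) {C : Type u} [Group C] (rfC : RF (Out C))
    (r : S A B →* MulAut C)
    (hr : ∀ (θ : S A B), θ.1 ∈ Inn (A × B) → r θ ∈ Inn C) {θ : MulAut (A × B)} (hθ : Resid θ)
    (hθS : θ ∈ S A B) : r ⟨θ, hθS⟩ ∈ Inn C := by
  by_contra hne
  have hne' : (QuotientGroup.mk' (Inn C) (r ⟨θ, hθS⟩)) ≠ 1 := by
    intro h
    exact hne ((QuotientGroup.eq_one_iff _).1 h)
  obtain ⟨N, hN, hNF, hmem⟩ := rfC _ hne'
  let K : Subgroup (S A B) := N.comap ((QuotientGroup.mk' (Inn C)).comp r)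
  have hK : K.FiniteIndex := by
    have e : K = ((QuotientGroup.mk' N).comp ((QuotientGroup.mk' (Inn C)).comp r)).ker := by
      ext x
      change _ ↔ QuotientGroup.mk' N (((QuotientGroup.mk' (Inn C)).comp r) x) = 1
      exact (QuotientGroup.eq_one_iff (N := N) _).symm
    rw [e]
    infer_instance
  let L : Subgroup (MulAut (A × B)) := K.map (S A B).subtype
  have hL : L.FiniteIndex := by
    constructor
    rw [Subgroup.index_map_subtype]
    exact mul_ne_zero hK.index_ne_zero hS.index_ne_zero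
  have hIL : Inn (A × B) ≤ L := by
    intro φ hφ
    refine ⟨⟨φ, inn_le_S hφ⟩, ?_, rfl⟩
    change QuotientGroup.mk' (Inn C) (r ⟨φ, inn_le_S hφ⟩) ∈ N
    have : QuotientGroup.mk' (Inn C) (r ⟨φ, inn_le_S hφ⟩) = 1 :=
      (QuotientGroup.eq_one_iff _).2 (hr ⟨φ, inn_le_S hφ⟩ hφ)
    rw [this]
    exact N.one_mem
  have hcore : Inn (A × B) ≤ L.normalCore := Subgroup.normal_le_normalCore.2 hIL
  have h1 := hθ L.normalCore inferInstance inferInstance hcore
  obtain ⟨θ', hθ', he⟩ := Subgroup.normalCore_le _ h1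
  have : θ' = ⟨θ, hθS⟩ := Subtype.ext he
  rw [this] at hθ'
  exact hmem hθ'

lemma S_finiteIndex
    (h : (MulAction.orbit (MulAut (A × B)) (Subgroup.prod ⊤ ⊥ : Subgroup (A × B))).Finite) :
    (S A B).FiniteIndex := by
  have hst : (MulAction.stabilizer (MulAut (A × B))
      (Subgroup.prod ⊤ ⊥ : Subgroup (A × B))).FiniteIndex := by
    constructor
    rw [MulAction.index_stabilizer]
    exact (Set.ncard_ne_zero_of_mem (MulAction.mem_orbit_self _) h)
  refine Subgroup.finiteIndex_of_le (H := MulAction.stabilizer (MulAut (A × B))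
      (Subgroup.prod ⊤ ⊥ : Subgroup (A × B))) ?_
  have key : ∀ θ : MulAut (A × B), θ ∈ MulAction.stabilizer (MulAut (A × B))
      (Subgroup.prod ⊤ ⊥ : Subgroup (A × B)) → ∀ a : A, (θ (a, 1)).2 = 1 := by
    intro θ hθ a
    have h1 : θ • (Subgroup.prod ⊤ ⊥ : Subgroup (A × B)) = Subgroup.prod ⊤ ⊥ := hθ
    have h2 : ((a, 1) : A × B) ∈ (Subgroup.prod ⊤ ⊥ : Subgroup (A × B)) := by
      simp [Subgroup.mem_prod]
    have h3 : θ • ((a, 1) : A × B) ∈ θ • (Subgroup.prod ⊤ ⊥ : Subgroup (A × B)) :=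
      Subgroup.smul_mem_pointwise_smul _ _ _ h2
    rw [h1] at h3
    exact Subgroup.mem_bot.1 (Subgroup.mem_prod.1 h3).2
  intro θ hθ
  exact ⟨key θ hθ, key θ⁻¹ (Subgroup.inv_mem _ hθ)⟩

lemma inn_of_prod {θ : MulAut (A × B)} {α : MulAut A} {δ : MulAut B}
    (h : ∀ a b, θ (a, b) = (α a, δ b)) (hα : α ∈ Inn A) (hδ : δ ∈ Inn B) : θ ∈ Inn (A × B) := by
  obtain ⟨c, rfl⟩ := hα
  obtain ⟨d, rfl⟩ := hδ
  refine ⟨(c, d), ?_⟩
  ext ⟨a, b⟩ <;> simp [h, MulAut.conj_apply]

end prod

end MP0c5939al
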